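import Pool.Agent.Helper94.FSA.Num
import Pool.Agent.Helper52.MW.Ime
import Pool.Agent.Helper26.MT.Zw

/-! THE ROW FIRST: assembly. -/

set_option autoImplicit false

namespace Pool.Agent.Helper94.FSA

open Finset Filter Topology Matrix Pool.Agent.Helper69.RK Pool.Agent.Helper31.EC Pool.Agent.Helper31.EC.Sp
open Pool.Agent.Helper40.EL Pool.Agent.Helper89.LX Pool.Agent.Helper84.MT
open Pool.Agent.Helper49.MD Pool.Agent.Helper36.AM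
open Pool.Agent.Helper3.LF (Mon)
open Pool.Agent.Helper29.MX
open Pool.Agent.Helper15.FST

noncomputable section

variable {M : ℕ}

/-- the linear class (error `0`) as a class of pairs -/
def FP {M : ℕ} (C : MCl (M + 1)) (v g r e0 D0 : ℕ) (q w0 : ℝ) :
    ∀ S : Sp, MSys S (M + 1) (lin g) (Fin r) → Rsl S → Prop :=
  fun S s R => R = rbot S ∧ FA C v g r e0 D0 q w0 0 S s

/-- the linear classes are closed under events of extensions and diagonals -/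
def FACL (M : ℕ) : Prop := ∀ (A : MCl (M + 1)) (C : ℕ → MCl (M + 1)), 1 ≤ M → Okc (M + 1) A C →
  (∀ m, m < M + 1 → STu m) → ∀ v : ℕ, STO (M + 1) (Cv A (v + 1)) → ∀ (m g r e0 D0 : ℕ) (q w0 : ℝ),
    1 ≤ g → 0 < r → 1 ≤ D0 → 0 ≤ q → q < 1 → 1 ≤ w0 → Pool.Agent.Helper94.SEL.Cl2 (FP (C m) v g r e0 D0 q w0)

/-- a member of the linear class from members with small errors -/
theorem exists_fa (hLm : ROW_LIMF M) {A : MCl (M + 1)} {C : ℕ → MCl (M + 1)} (h1 : 1 ≤ M) (hC : Okc (M + 1) A C)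
    (hst : ∀ m, m < M + 1 → STu m) {v : ℕ} (hsto : STO (M + 1) (Cv A (v + 1))) {m g r e0 D0 : ℕ} {q w0 : ℝ}
    (hg : 1 ≤ g) (hr : 0 < r) (hD : 1 ≤ D0) (hq : 0 ≤ q) (hq1 : q < 1) (hw : 1 ≤ w0)
    (h : ∀ ε : ℝ, 0 < ε → ∃ S s, FA (C m) v g r e0 D0 q w0 ε S s) : ∃ S s, FA (C m) v g r e0 D0 q w0 0 S s := by
  have hε : ∀ k : ℕ, (0 : ℝ) < 1 / ((k : ℝ) + 1) := fun k => by positivity
  choose S s hs using fun k : ℕ => h (1 / ((k : ℝ) + 1)) (hε k)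
  obtain ⟨E, hE, hJ⟩ := hLm A C h1 hC hst v hsto m g r e0 D0 q w0 (fun k => 1 / ((k : ℝ) + 1)) hg hr hD hq hq1 hw
    (fun k => (hε k).le) tendsto_one_div_add_atTop_nhds_zero_nat S (fun k => ob (s k)) (fun k => lft_ob (hs k))
  obtain ⟨J, hJ1⟩ := exists_slo S E hE
  obtain ⟨s', -, hs'⟩ := hJ J hJ1
  exact ⟨_, s', hs'⟩

/-- THE OUTPUT -/
theorem fc_out (hcl : FACL M) {A : MCl (M + 1)} {C : ℕ → MCl (M + 1)} (h1 : 1 ≤ M) (hC : Okc (M + 1) A C)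
    (hst : ∀ m, m < M + 1 → STu m) {v : ℕ} (hsto : STO (M + 1) (Cv A (v + 1))) {m g r e0 D0 : ℕ} {q w0 : ℝ}
    (hg : 1 ≤ g) (hr : 0 < r) (hD : 1 ≤ D0) (hq : 0 ≤ q) (hq1 : q < 1) (hw : 1 ≤ w0)
    (h : ∃ S s, FA (C m) v g r e0 D0 q w0 0 S s) :
    Pool.Agent.Helper94.SEL.FC (C m) v g r e0 (1 - q) w0 (FP (C m) v g r e0 D0 q w0) := by
  refine ⟨by linarith, hw, hcl A C h1 hC hst v hsto m g r e0 D0 q w0 hg hr hD hq hq1 hw, ?_, ?_, ?_, ?_⟩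
  · obtain ⟨S, s, hs⟩ := h
    exact ⟨S, s, rbot S, rfl, hs⟩
  · rintro S s R ⟨rfl, hs⟩
    exact ⟨hs.bk.cl, hs.bk.dim, hs.bk.pol⟩
  · rintro S s R ⟨rfl, hs⟩ c hc hc1
    have h2 := hs.tot c hc (by linarith)
    have h3 := abs_nonpos_iff.1 h2
    linarith
  · rintro S s R ⟨rfl, hs⟩ b hb hb1
    have h2 : AllE (fun _ (t : MSys _ (M + 1) (lin g) (Fin r)) _ => ∀ b : ℝ, 0 ≤ b → b ≤ 1 →
        H (t.Q.dg b) ≤ (M + q) * b + 0) S s (rbot S) := fun T p B hB => hs.dfc T p B hB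
    have h3 := Pool.Agent.Helper52.MW.AllE_self h2 b hb hb1
    linarith

theorem HL_bdd' {S : Sp} {N : ℕ} {E : ℕ → ℕ} {ι : Type} (s : MSys S N E ι) (r c : ℝ) :
    BddBelow {v | ∃ l : Lab S, TLb s c l ∧ v = H (up1 l (s.Q.dg r))} :=
  ⟨0, by
    rintro v ⟨l, -, rfl⟩
    exact H_nonneg _⟩

theorem HL_le' {S : Sp} {N : ℕ} {E : ℕ → ℕ} {ι : Type} {s : MSys S N E ι} {r c : ℝ} {l : Lab S} (hl : TLb s c l) :
    HL s r c ≤ H (up1 l (s.Q.dg r)) :=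
  csInf_le (HL_bdd' s r c) ⟨l, hl, rfl⟩

/-- forms over type-labels are ordinary forms -/
theorem kad_ord' {S : Sp} {N D : ℕ} {E : ℕ → ℕ} {ι : Type} [Finite ι] {s : MSys S N E ι} {i j : ι} (h : Tri i j s)
    {c : ℝ} (hc : c ≤ 1) {x : ∀ k, FD (S.F k) (Mon N D)} : KAd s (rbot S) D c x → (gaq s.Q D).Adf (s.cnd c) x := by
  rw [kad_bot]
  intro hx
  rw [Gau.Adf_iff] at hx ⊢
  exact ⟨Pool.Agent.Helper3.ENT.Tri.dmc h hc (fun a => hx.1 a), hx.2⟩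

theorem volO_le' {S : Sp} {N : ℕ} {E : ℕ → ℕ} {ι : Type} [Finite ι] {s : MSys S N E ι} {i j : ι} (h : Tri i j s)
    {c : ℝ} (hc : c ≤ 1) : volO s c ≤ volKO s (rbot S) c := by
  refine ciInf_mono (Pool.Agent.Helper84.MT.volO_bdd s c) fun D => ?_
  obtain ⟨x, hx⟩ := (gaq s.Q D).exists_optfK (KZ (rbot S)) (Pool.Agent.Helper87.NSL.cndR s (rbot S) c)
  have h1 : volK s (rbot S) D c = vol s.Q D x := volK_of_opt hx
  rw [h1]
  exact s.vol_le_of (kad_ord' h hc hx.1)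

/-- the deficit of the entry -/
theorem dfc_zero (hLEV : ROW_LEV) {C : ℕ → MCl (M + 1)} {m v g r : ℕ} {i j : Fin r} {L : Set ℝ} {u h : ℝ → ℝ → ℝ}
    {V : ℝ → ℝ → ℕ → ℝ} {P : (KM (M + 1) (Fin r)).Pd} (hF : FC C m v g r i j L u h V P)
    (hr : ∀ e : ℚ, (0 : ℝ) < e → (e : ℝ) ≤ 1 → (e : ℝ) ∈ L) {δ : ℝ}
    (hδ : ∀ (S : Sp) (s : MSys S (M + 1) (lin g) (Fin r)) (x : (KM (M + 1) (Fin r)).Ob S), Giv s x → P S x →
      H (s.Q.dg 1) + δ ≤ volO s 0) : u 1 0 + h 1 0 ≤ ((M + 1 : ℕ) : ℝ) - δ := by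
  obtain ⟨S, s, hs⟩ := exists_memb hF
  have h1L : (1 : ℝ) ∈ L := by
    have := hr 1 (by norm_num) (by norm_num)
    rwa [Rat.cast_one] at this
  have e1 : u 1 0 = ((M + 1 : ℕ) : ℝ) - volKO s (rbot S) 0 := by
    rw [← hF.ul S s hs 1 h1L one_pos le_rfl 0 le_rfl zero_le_one]
    exact (hLEV S (M + 1) g r s).1 0 le_rfl zero_le_one
  have e2 := hF.hl S s hs 1 h1L one_pos le_rfl 0 le_rfl zero_le_one
  have e3 : volO s 0 ≤ volKO s (rbot S) 0 := volO_le' hs.1.2 zero_le_one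
  have e4 := hδ S s (ob s) (Giv_ob s) hs.2
  have htr : TLb s 0 (fun k => FLab.triv (S.F k)) := fun i => (Lab.DM_triv ((s.lf i).win 0) ((s.lf i).win 0)).1
  have e5 := HL_le' (r := 1) htr
  have e6 : H (up1 (fun k => FLab.triv (S.F k)) (s.Q.dg 1)) ≤ H (s.Q.dg 1) := H_up1_le _ _
  rw [e1, ← e2]
  linarith

/-- positive speed: a class `FC` ([A] and the limits) -/
def ROW_AL (M : ℕ) : Prop := ∀ (A : MCl (M + 1)) (C : ℕ → MCl (M + 1)), 1 ≤ M → Okc (M + 1) A C →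
  (∀ m, m < M + 1 → STu m) → ∀ (m v g r : ℕ) (i j : Fin r) (L : Set ℝ) (u h : ℝ → ℝ → ℝ) (V : ℝ → ℝ → ℕ → ℝ)
  (P : (KM (M + 1) (Fin r)).Pd), 1 ≤ g → STO (M + 1) (Cv A (v + 1)) → FC C m v g r i j L u h V P → ∀ c a p q : ℝ,
    Loc L u h c a p q → 0 < p → ∃ (κ e0 : ℕ) (ρ w0 : ℝ)
      (TT : ∀ S : Sp, MSys S (M + 1) (lin κ) (Fin r) → Rsl S → Prop), Pool.Agent.Helper94.SEL.FC (C m) v κ r e0 ρ w0 TT

/-- from the rows [A], [LIMF] of `Helper15/FST/St` -/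
theorem al_of (hA : ROW_A M) (hLm : ROW_LIMF M) (hcl : FACL M) : ROW_AL M := by
  intro A C h1 hC hst m v g r i j L u h V P hg hsto hF c a p q hloc hp0
  obtain ⟨κ, e0, D0, hκ, hD0, hw, hm⟩ := hA A C h1 hC hst m v g r i j L u h V P hg hF c a p q hloc hp0
  exact ⟨κ, e0, 1 - q, p⁻¹, FP (C m) v κ r e0 D0 q p⁻¹, fc_out hcl h1 hC hst hsto hκ i.pos hD0 hloc.q0
    hloc.q1 hw (exists_fa hLm h1 hC hst hsto hκ i.pos hD0 hloc.q0 hloc.q1 hw hm)⟩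

/-- **THE ROW FIRST** -/
theorem first_al (hLEV : ROW_LEV) (hR : ROW_RFC (M + 1)) (hNum : ROW_NUM (M + 1)) (hAL : ROW_AL M)
    (hB : ROW_B (M + 1)) (hCc : ROW_C (M + 1)) : Pool.Agent.Helper94.SEL.FIRST M := by
  intro A C v hc hE hS
  obtain ⟨m, g, r, i, j, δ, P, hg, -, hδ, hP, hPe, hPδ⟩ := Pool.Agent.Helper3.ENT.entry hc.st hc.ok hE hS
  set L : Set ℝ := Set.range ((↑) : ℚ → ℝ) with hL
  have hLc : L.Countable := Set.countable_range _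
  obtain ⟨P', u, h, V, hP', hF⟩ := hR A C hc.ok hc.st m v g r i j P hg hP hPe L hLc
  have hr : ∀ e : ℚ, (0 : ℝ) < e → (e : ℝ) ≤ 1 → (e : ℝ) ∈ L := fun e _ _ => ⟨e, rfl⟩
  have hN1 : 1 ≤ M + 1 := Nat.succ_le_succ (Nat.zero_le M)
  have hN := nms_of hLEV hNum hc.ok hc.st hg hF hr
  obtain ⟨n1, n2, n3, n4, n5, -, -, n8⟩ := hNum A C hc.ok hc.st m v g r i j L u h V P' hg hN1 hF hr
  have h0 := dfc_zero hLEV hF hr fun S s x hx hPx => hPδ S s x hx (hP' S x hPx)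
  have hpt := first_pt (N := ((M + 1 : ℕ) : ℝ)) (u := u 1) (h := h 1)
    (U := fun c => ∃ e : ℚ, c < e ∧ (e : ℝ) < 1 ∧ u 1 c ≤ u e c) (by exact_mod_cast hN1) hδ
    (fun x y hx hxy hy => by
      have := hN.win 1 x y (by norm_num) (by norm_num) hx hxy (by rw [Rat.cast_one]; exact hy)
      rwa [Rat.cast_one] at this)
    hN.ant n1 n3 n4 (by
      have := hN.cel 0 le_rfl zero_le_one
      rwa [mul_zero] at this) h0
    (by
      rintro c hc0 hc1 ⟨e, he1, he2, he3⟩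
      refine ⟨1 - e, by linarith, fun c' hcc hc' => ?_⟩
      exact n2 e ⟨e, rfl⟩ c c' (hc0.trans_lt he1) he2 hc0 he1.le hcc hc'
        (le_antisymm (hN.lev1 (hc0.trans_lt he1) he2.le hc0 he1.le) he3))
    (by
      intro c hc0 hc1 hU
      have := n8 c hc0 hc1 fun e he1 he2 => by
        by_contra hcon
        exact hU ⟨e, he1, he2, not_lt.1 hcon⟩
      linarith)
  rcases hpt with ⟨c, hc0, hc1, ε, hε, hj⟩ | ⟨c, hc0, hc1, ⟨e, he1, he2, he3⟩, p, q, hp, hq, hq1, tp, tq⟩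
  · exact absurd hj (no_jump hLEV hNum hR hCc hc.ok hc.st hc.sto hg hF hr hLc hc0 hc1 hε)
  · have hloc : Loc L u h c e p q := ⟨hr, hc0, he1.le, he2, ⟨e, rfl⟩,
      le_antisymm (hN.lev1 (hc0.trans he1) he2.le hc0.le he1.le) he3, hp, hq, hq1, tp, tq⟩
    rcases hp.eq_or_lt with hp0 | hp0
    · rw [← hp0] at hloc
      exact absurd hloc (hB A C hc.ok hc.st m v g r i j L u h V P' hg hN1 hc.sto hF c e q)
    · obtain ⟨κ, e0, ρ, w0, TT, hTT⟩ := hAL A C hc.M1 hc.ok hc.st m v g r i j L u h V P' hg hc.sto hF c e p q hloc hp0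
      exact ⟨m, κ, r, e0, ρ, w0, TT, hTT⟩

/-- from the rows of `Helper15/FST/St` -/
theorem first_of (hLEV : ROW_LEV) (hR : ROW_RFC (M + 1)) (hNum : ROW_NUM (M + 1)) (hA : ROW_A M)
    (hB : ROW_B (M + 1)) (hCc : ROW_C (M + 1)) (hLm : ROW_LIMF M) (hcl : FACL M) :
    Pool.Agent.Helper94.SEL.FIRST M := first_al hLEV hR hNum (al_of hA hLm hcl) hB hCc

end

end Pool.Agent.Helper94.FSA
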