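import Pool.Agent.Helper94.FSA.Top
import Pool.Agent.Helper3.FST.Rfc
import Pool.Agent.Helper5.FN3.N3
import Pool.Agent.Helper10.FST.Clz
import Pool.Agent.Helper10.FST.Cn
import Pool.Agent.Helper13.FST.Kap
import Pool.Agent.Helper15.FST.Rc
import Pool.Agent.Helper17.FSA.RowA
import Pool.Agent.Helper36.FST.Limj
import Pool.Agent.Helper37.FST.Eq
import Pool.Agent.Helper37.FST.Fin
import Pool.Agent.Helper39.FST.B
import Pool.Agent.Helper46.FST.Trv
import Pool.Agent.Helper56.IMZ.Imz
import Pool.Agent.Helper60.FST.Lvf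
import Pool.Agent.Helper61.FST.Exh
import Pool.Agent.Helper62.FST.Row
import Pool.Agent.Helper69.FST.Lev
import Pool.Agent.Helper80.FST.Row2
import Pool.Agent.Helper80.FST.Row4
import Pool.Agent.Helper82.RGU.Row
import Pool.Agent.Helper89.NUM.Row
import Pool.Agent.Helper93.EXPO.Row
import Pool.Agent.Helper93.FST.N1

/-! THE ROW FIRST: all proved rows plugged in. -/

set_option autoImplicit false

namespace Pool.Agent.Helper94.FSA

open Pool.Agent.Helper15.FST Pool.Agent.Helper62.FST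

/-- **[FIRST]** from `NSLJ` -/
theorem first_fin {M : ℕ} (nslj : NSLJ (M + 1)) : Pool.Agent.Helper94.SEL.FIRST M := by
  have lev : ROW_LEV := Pool.Agent.Helper69.FST.row_lev
  have lvf : ROW_LVF := Pool.Agent.Helper60.FST.row_lvf
  have trv : ROW_TRV := Pool.Agent.Helper46.FST.row_trv
  have kap : ROW_KAP := Pool.Agent.Helper13.FST.row_kap
  have exh : ROW_EXH := Pool.Agent.Helper61.FST.row_exh
  have cst : ROW_CST (M + 1) := Pool.Agent.Helper13.FST.row_cst (M + 1)
  have imz : ROW_IMZ := Pool.Agent.Helper56.IMZ.row_imz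
  have n1 : ROW_N1 := Pool.Agent.Helper93.FST.row_n1
  have n2 : ROW_N2 := Pool.Agent.Helper80.FST.row_n2
  have n3 : ROW_N3 := Pool.Agent.Helper5.FN3.row_n3
  have n4 : ROW_N4 := Pool.Agent.Helper80.FST.row_n4
  have eq : ROW_EQ := Pool.Agent.Helper37.FST.row_eq lev
  have zex : ROW_ZEX (M + 1) := Pool.Agent.Helper37.FST.zex (M + 1)
  have expo : ROW_EXPO (M + 1) := Pool.Agent.Helper93.EXPO.row_expo (M + 1)
  have num : ROW_NUM (M + 1) := Pool.Agent.Helper89.NUM.row_num lev lvf exh kap (M + 1)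
  have limj : ROW_LIMJ (M + 1) := Pool.Agent.Helper36.FST.row_limj (M + 1)
  have rgu : ROW_RGU := Pool.Agent.Helper82.RGU.row_rgu
  have clz : ROW_CLZ := Pool.Agent.Helper10.FST.row_clz
  have a : ROW_A' M := Pool.Agent.Helper17.FSA.row_a' lev trv kap imz n3 n4 clz (Pool.Agent.Helper37.FST.zmxp M lev) cst num
  exact first_limg lev (Pool.Agent.Helper3.FST.row_rfc (M + 1)) num a
    (Pool.Agent.Helper39.FST.row_b (M + 1) lev lvf trv rgu exh kap imz n1 n3 n4 eq zex cst num limj nslj)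
    (Pool.Agent.Helper15.FST.row_c lev lvf exh kap cst imz n1 n2 n3 eq zex num expo limj nslj
      Pool.Agent.Helper10.FST.cnum)
    (row_limg M)

end Pool.Agent.Helper94.FSA
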