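import Pool.Agent.Helper94.FSA.Rl

/-! FIRST, real analysis: the top exponent and the resolution at a jump. -/

set_option autoImplicit false

namespace Pool.Agent.Helper94.FSA

open Filter Topology Set

noncomputable section

variable {N v c ε : ℝ} {u h : ℝ → ℝ → ℝ}

/-- numbers of a class at the rational levels -/
structure Nms (N v : ℝ) (u h : ℝ → ℝ → ℝ) : Prop where
  lev : ∀ (e e' : ℚ) (y : ℝ), (0 : ℝ) < e → e ≤ e' → (e' : ℝ) ≤ 1 → 0 ≤ y → y ≤ e → u e y ≤ u e' y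
  win : ∀ (e : ℚ) (y y' : ℝ), (0 : ℝ) < e → (e : ℝ) ≤ 1 → 0 ≤ y → y ≤ y' → y' ≤ e → u e y ≤ u e y'
  ent : ∀ (e : ℚ) (y : ℝ), (0 : ℝ) < e → (e : ℝ) ≤ 1 → 0 ≤ y → y ≤ e → h e y ≤ N * e - u e y
  uni : ∀ (e : ℚ) (y : ℝ), (0 : ℝ) < e → (e : ℝ) ≤ 1 → 0 ≤ y → y ≤ e → v * (e - y) ≤ h e y
  ant : ∀ y y' : ℝ, 0 ≤ y → y ≤ y' → y' ≤ 1 → h 1 y' ≤ h 1 y
  cel : ∀ y : ℝ, 0 ≤ y → y ≤ 1 → N * y ≤ u 1 y

theorem Nms.lev1 (hN : Nms N v u h) {e : ℚ} {y : ℝ} (h0 : (0 : ℝ) < e) (h1 : (e : ℝ) ≤ 1) (hy : 0 ≤ y) (hye : y ≤ e) :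
    u e y ≤ u 1 y := by
  have h2 := hN.lev e 1 y h0 (by exact_mod_cast h1) (by norm_num) hy hye
  rwa [Rat.cast_one] at h2

theorem Nms.ent1 (hN : Nms N v u h) {y : ℝ} (hy : 0 ≤ y) (hy1 : y ≤ 1) : h 1 y ≤ N - u 1 y := by
  have h2 := hN.ent 1 y (by norm_num) (by norm_num) hy (by rw [Rat.cast_one]; exact hy1)
  rwa [Rat.cast_one, mul_one] at h2

theorem Nms.uni1 (hN : Nms N v u h) {y : ℝ} (hy : 0 ≤ y) (hy1 : y ≤ 1) : v * (1 - y) ≤ h 1 y := by
  have h2 := hN.uni 1 y (by norm_num) (by norm_num) hy (by rw [Rat.cast_one]; exact hy1)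
  rwa [Rat.cast_one] at h2

/-- the level `e` is unit-directional at the left limit of `c` -/
def Zr (N v : ℝ) (u : ℝ → ℝ → ℝ) (c : ℝ) (e : ℚ) : Prop :=
  ∀ η : ℝ, 0 < η → ∀ᶠ y in 𝓝[<] c, N * e - u e y ≤ v * (e - y) + η

theorem ev_pos (hc : 0 < c) : ∀ᶠ y in 𝓝[<] c, 0 ≤ y ∧ y < c := by
  filter_upwards [Ioo_mem_nhdsLT hc] with y hy
  exact ⟨hy.1.le, hy.2⟩

/-- a level which is not unit-directional -/
theorem not_zr (hN : Nms N v u h) (hc : 0 < c) {e : ℚ} (hce : c < e) (he1 : (e : ℝ) ≤ 1) (hz : ¬ Zr N v u c e) :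
    ∃ η : ℝ, 0 < η ∧ ∀ y, 0 ≤ y → y < c → v * (e - c) + η ≤ N * e - u e y := by
  unfold Zr at hz
  push Not at hz
  obtain ⟨η, hη, hz⟩ := hz
  refine ⟨η / 2, half_pos hη, fun y hy hyc => ?_⟩
  have h1 : ∀ᶠ z in 𝓝[<] c, y < z ∧ z < c ∧ v * (e - c) - η / 2 ≤ v * (e - z) := by
    have h2 : Tendsto (fun z : ℝ => v * (e - z)) (𝓝[<] c) (𝓝 (v * (e - c))) :=
      ((continuous_const.mul (continuous_const.sub continuous_id)).tendsto c).mono_left nhdsWithin_le_nhds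
    have h3 := h2.eventually (lt_mem_nhds (show v * (e - c) - η / 2 < v * (e - c) by linarith))
    filter_upwards [h3, Ioo_mem_nhdsLT hyc] with z a b
    exact ⟨b.1, b.2, a.le⟩
  obtain ⟨z, hz1, hz2, hz3, hz4⟩ := (hz.and_eventually h1).exists
  have h5 := hN.win e y z (hc.trans hce) he1 hy hz2.le (hz3.le.trans hce.le)
  linarith

/-- THE RESOLUTION: `a` and the top exponent `θ` at a jump -/
theorem exists_res (hN : Nms N v u h) (hc : 0 < c) (hc1 : c < 1) (hε : 0 < ε)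
    (hj : ∀ᶠ y in 𝓝[<] c, u 1 y + h 1 y + ε ≤ u 1 c + h 1 c) :
    ∃ a θ : ℝ, c ≤ a ∧ a < θ ∧ θ ≤ 1 ∧ (∀ e : ℚ, c ≤ e → (e : ℝ) < θ → u e c < u 1 c) ∧
      (∀ e : ℚ, θ < e → (e : ℝ) ≤ 1 → u e c = u 1 c) ∧
      (a = c ∨ ∀ η : ℝ, 0 < η → ∃ e : ℚ, c < e ∧ (e : ℝ) ≤ a ∧ a - η < e ∧ Zr N v u c e) ∧
      ∀ e : ℚ, a < e → (e : ℝ) ≤ 1 → ∃ η : ℝ, 0 < η ∧ ∀ y, 0 ≤ y → y < c → v * (e - c) + η ≤ N * e - u e y := by
  classical
  -- the top exponent
  set B : Set ℝ := {x | x = c ∨ ∃ e : ℚ, (e : ℝ) = x ∧ c ≤ e ∧ (e : ℝ) ≤ 1 ∧ u e c < u 1 c} with hB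
  have hBc : c ∈ B := Or.inl rfl
  have hBb : BddAbove B := ⟨1, by
    rintro x (rfl | ⟨e, rfl, -, h2, -⟩)
    · exact hc1.le
    · exact h2⟩
  set θ := sSup B with hθ
  have hcθ : c ≤ θ := le_csSup hBb hBc
  have hθ1 : θ ≤ 1 := csSup_le ⟨c, hBc⟩ (by
    rintro x (rfl | ⟨e, rfl, -, h2, -⟩)
    · exact hc1.le
    · exact h2)
  have ht1 : ∀ e : ℚ, c ≤ e → (e : ℝ) < θ → u e c < u 1 c := by
    intro e he het
    obtain ⟨x, hx, hx2⟩ := exists_lt_of_lt_csSup (s := B) ⟨c, hBc⟩ het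
    rcases hx with rfl | ⟨e', rfl, h1, h2, h3⟩
    · linarith
    · exact (hN.lev e e' c (hc.trans_le he) (by exact_mod_cast hx2.le) h2 hc.le he).trans_lt h3
  have ht2 : ∀ e : ℚ, θ < e → (e : ℝ) ≤ 1 → u e c = u 1 c := by
    intro e he he1
    have hce : c ≤ e := hcθ.trans he.le
    apply le_antisymm (hN.lev1 (hc.trans_le hce) he1 hc.le hce)
    by_contra hcon
    push Not at hcon
    have := le_csSup hBb (show (e : ℝ) ∈ B from Or.inr ⟨e, rfl, hce, he1, hcon⟩)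
    linarith
  -- the resolution
  set A : Set ℝ := {x | x = c ∨ ∃ e : ℚ, (e : ℝ) = x ∧ c < e ∧ (e : ℝ) ≤ 1 ∧ Zr N v u c e} with hA
  have hAc : c ∈ A := Or.inl rfl
  have hAb : BddAbove A := ⟨1, by
    rintro x (rfl | ⟨e, rfl, -, h2, -⟩)
    · exact hc1.le
    · exact h2⟩
  set a := sSup A with ha
  have hca : c ≤ a := le_csSup hAb hAc
  have ha1 : a ≤ 1 := csSup_le ⟨c, hAc⟩ (by
    rintro x (rfl | ⟨e, rfl, -, h2, -⟩)
    · exact hc1.le
    · exact h2)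
  have hr1 : a = c ∨ ∀ η : ℝ, 0 < η → ∃ e : ℚ, c < e ∧ (e : ℝ) ≤ a ∧ a - η < e ∧ Zr N v u c e := by
    rcases hca.eq_or_lt with h1 | h1
    · exact Or.inl h1.symm
    · right
      intro η hη
      have h2 : max c (a - η) < a := max_lt h1 (by linarith)
      obtain ⟨x, hx, hx2⟩ := exists_lt_of_lt_csSup (s := A) ⟨c, hAc⟩ h2
      rcases hx with rfl | ⟨e, rfl, h3, h4, h5⟩
      · have := le_max_left x (a - η)
        linarith
      · exact ⟨e, h3, le_csSup hAb (Or.inr ⟨e, rfl, h3, h4, h5⟩), (le_max_right _ _).trans_lt hx2, h5⟩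
  have hr2 : ∀ e : ℚ, a < e → (e : ℝ) ≤ 1 → ∃ η : ℝ, 0 < η ∧ ∀ y, 0 ≤ y → y < c → v * (e - c) + η ≤ N * e - u e y := by
    intro e he he1
    refine not_zr hN hc (hca.trans_lt he) he1 fun hz => ?_
    have := le_csSup hAb (show (e : ℝ) ∈ A from Or.inr ⟨e, rfl, hca.trans_lt he, he1, hz⟩)
    linarith
  -- lower bounds of `u 1` near `c`
  have hlow : ∀ η : ℝ, 0 < η → ∀ᶠ y in 𝓝[<] c, N * a - v * (a - y) - η ≤ u 1 y := by
    intro η hη
    rcases hr1 with h1 | h1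
    · have h2 : Tendsto (fun y : ℝ => N * y + v * (c - y)) (𝓝[<] c) (𝓝 (N * c + v * (c - c))) :=
        (((continuous_const.mul continuous_id).add (continuous_const.mul (continuous_const.sub continuous_id))).tendsto
          c).mono_left nhdsWithin_le_nhds
      have h3 := h2.eventually (lt_mem_nhds (show N * c + v * (c - c) - η < N * c + v * (c - c) by linarith))
      filter_upwards [h3, ev_pos hc] with y h4 h5
      have h6 := hN.cel y h5.1 (h5.2.le.trans hc1.le)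
      rw [h1]
      rw [sub_self, mul_zero, add_zero] at h4
      linarith
    · obtain ⟨e, he1, he2, he3, he4⟩ := h1 (η / (2 * (|N - v| + 1))) (by positivity)
      filter_upwards [he4 (η / 2) (half_pos hη), ev_pos hc] with y h4 h5
      have h6 := hN.lev1 (hc.trans he1) (he2.trans ha1) h5.1 (h5.2.le.trans he1.le)
      have h7 : (N - v) * (a - e) ≤ η / 2 := by
        have h8 : (N - v) * (a - e) ≤ |N - v| * (a - e) :=
          mul_le_mul_of_nonneg_right (le_abs_self _) (by linarith)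
        have h9 : |N - v| * (a - e) ≤ (|N - v| + 1) * (η / (2 * (|N - v| + 1))) :=
          mul_le_mul (by linarith) (by linarith) (by linarith) (by positivity)
        have h10 : (|N - v| + 1) * (η / (2 * (|N - v| + 1))) = η / 2 := by
          have : (0 : ℝ) < |N - v| + 1 := by positivity
          field_simp
        linarith
      nlinarith
  -- `a < 1`
  have ha1' : a < 1 := by
    rcases ha1.eq_or_lt with h1 | h1
    · exfalso
      obtain ⟨y, ⟨h2, h3⟩, h4⟩ := (((hlow (ε / 2) (half_pos hε)).and hj).and (ev_pos hc)).exists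
      have h5 := hN.ent1 hc.le hc1.le
      have h6 := hN.uni1 h4.1 (h4.2.le.trans hc1.le)
      rw [h1] at h2
      linarith
    · exact h1
  -- `a < θ`
  have haθ : a < θ := by
    by_contra hcon
    push Not at hcon
    have h1 : v * (a - c) ≤ N * a - u 1 c := by
      by_contra h2
      push Not at h2
      have h3 : Tendsto (fun e : ℝ => N * e - u 1 c - v * (e - c)) (𝓝[>] a) (𝓝 (N * a - u 1 c - v * (a - c))) :=
        ((((continuous_const.mul continuous_id).sub continuous_const).sub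
          (continuous_const.mul (continuous_id.sub continuous_const))).tendsto a).mono_left nhdsWithin_le_nhds
      have h4 := h3.eventually (gt_mem_nhds (show N * a - u 1 c - v * (a - c) < 0 by linarith))
      obtain ⟨z, hz, hz2⟩ := mem_nhdsGT_iff_exists_Ioo_subset.1 h4
      obtain ⟨e, he1, he2⟩ := exists_rat_btwn (show a < min z 1 from lt_min hz ha1')
      have he3 : (e : ℝ) < z := he2.trans_le (min_le_left _ _)
      have he4 : (e : ℝ) ≤ 1 := (he2.trans_le (min_le_right _ _)).le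
      have h5 : N * (e : ℝ) - u 1 c - v * (e - c) < 0 := hz2 ⟨he1, he3⟩
      have h6 := ht2 e (hcon.trans_lt he1) he4
      have hce : c ≤ e := hca.trans he1.le
      have h7 := hN.ent e c (hc.trans_le hce) he4 hc.le hce
      have h8 := hN.uni e c (hc.trans_le hce) he4 hc.le hce
      rw [h6] at h7
      linarith
    have h2 : Tendsto (fun y : ℝ => v * (c - y)) (𝓝[<] c) (𝓝 (v * (c - c))) :=
      ((continuous_const.mul (continuous_const.sub continuous_id)).tendsto c).mono_left nhdsWithin_le_nhds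
    rw [sub_self, mul_zero] at h2
    have h3 := h2.eventually (gt_mem_nhds (show (0 : ℝ) < ε / 4 by linarith))
    obtain ⟨y, ⟨⟨h4, h5⟩, h6⟩, h7⟩ := ((((hlow (ε / 4) (by linarith)).and hj).and (ev_pos hc)).and h3).exists
    have h8 := hN.ant y c h6.1 h6.2.le hc1.le
    linarith
  exact ⟨a, θ, hca, haθ, hθ1, ht1, ht2, hr1, hr2⟩

/-- the conditions at the resolution `a`, `f` the numbers of the level `a` -/
theorem res_cond {a : ℝ} {f : ℝ → ℝ} (hc : 0 < c) (hca : c ≤ a)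
    (hf : ∀ (e : ℚ) (y : ℝ), (0 : ℝ) < e → (e : ℝ) ≤ a → 0 ≤ y → y ≤ e → u e y ≤ f y)
    (hf' : ∀ y : ℝ, 0 ≤ y → y ≤ a → N * y ≤ f y)
    (hr1 : a = c ∨ ∀ η : ℝ, 0 < η → ∃ e : ℚ, c < e ∧ (e : ℝ) ≤ a ∧ a - η < e ∧ Zr N v u c e)
    (hr2 : ∀ e : ℚ, a < e → (e : ℝ) ≤ 1 → ∃ η : ℝ, 0 < η ∧ ∀ y, 0 ≤ y → y < c → v * (e - c) + η ≤ N * e - u e y) :
    (∀ η : ℝ, 0 < η → ∀ᶠ y in 𝓝[<] c, N * a - f y ≤ v * (a - y) + η) ∧
      ∀ e : ℚ, a < e → (e : ℝ) ≤ 1 → ∃ η : ℝ, 0 < η ∧ ∀ᶠ y in 𝓝[<] c, u e y - f y ≤ (N - v) * (e - a) - η := by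
  have h1 : ∀ η : ℝ, 0 < η → ∀ᶠ y in 𝓝[<] c, N * a - f y ≤ v * (a - y) + η := by
    intro η hη
    rcases hr1 with h1 | h1
    · have h2 : Tendsto (fun y : ℝ => (N - v) * (c - y)) (𝓝[<] c) (𝓝 ((N - v) * (c - c))) :=
        ((continuous_const.mul (continuous_const.sub continuous_id)).tendsto c).mono_left nhdsWithin_le_nhds
      rw [sub_self, mul_zero] at h2
      filter_upwards [h2.eventually (gt_mem_nhds hη), ev_pos hc] with y h3 h4
      have h5 := hf' y h4.1 (h4.2.le.trans hca)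
      rw [h1]
      linarith
    · obtain ⟨e, he1, he2, he3, he4⟩ := h1 (η / (2 * (|N - v| + 1))) (by positivity)
      filter_upwards [he4 (η / 2) (half_pos hη), ev_pos hc] with y h4 h5
      have h6 := hf e y (hc.trans he1) he2 h5.1 (h5.2.le.trans he1.le)
      have h7 : (N - v) * (a - e) ≤ η / 2 := by
        have h8 : (N - v) * (a - e) ≤ |N - v| * (a - e) :=
          mul_le_mul_of_nonneg_right (le_abs_self _) (by linarith)
        have h9 : |N - v| * (a - e) ≤ (|N - v| + 1) * (η / (2 * (|N - v| + 1))) :=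
          mul_le_mul (by linarith) (by linarith) (by linarith) (by positivity)
        have h10 : (|N - v| + 1) * (η / (2 * (|N - v| + 1))) = η / 2 := by
          have : (0 : ℝ) < |N - v| + 1 := by positivity
          field_simp
        linarith
      nlinarith
  refine ⟨h1, fun e he he1 => ?_⟩
  obtain ⟨η, hη, h2⟩ := hr2 e he he1
  refine ⟨η / 2, half_pos hη, ?_⟩
  have h3 : Tendsto (fun y : ℝ => v * (c - y)) (𝓝[<] c) (𝓝 (v * (c - c))) :=
    ((continuous_const.mul (continuous_const.sub continuous_id)).tendsto c).mono_left nhdsWithin_le_nhds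
  rw [sub_self, mul_zero] at h3
  filter_upwards [h1 (η / 4) (by linarith), h3.eventually (gt_mem_nhds (show (0 : ℝ) < η / 4 by linarith)),
    ev_pos hc] with y h4 h5 h6
  have h7 := h2 y h6.1 h6.2
  nlinarith

end

end Pool.Agent.Helper94.FSA
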