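import Pool.Agent.Helper94.FSA.Lev
import Pool.Agent.Helper15.FST.St
import Pool.Agent.Helper3.ENT.Top
import Pool.Agent.Helper84.SEL.Numx

/-! FIRST, assembly: the numbers of a robust class. -/

set_option autoImplicit false

namespace Pool.Agent.Helper94.FSA

open Finset Filter Topology Matrix Pool.Agent.Helper69.RK Pool.Agent.Helper31.EC Pool.Agent.Helper31.EC.Sp
open Pool.Agent.Helper40.EL Pool.Agent.Helper89.LX Pool.Agent.Helper84.MT
open Pool.Agent.Helper49.MD Pool.Agent.Helper36.AM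
open Pool.Agent.Helper3.LF (Mon)
open Pool.Agent.Helper29.MX
open Pool.Agent.Helper15.FST

noncomputable section

variable {S T : Sp} {M N : ℕ} {E : ℕ → ℕ} {ι : Type}

theorem pt_rbot (s : MSys S N E ι) : Pt s (rbot S) :=
  Eventually.of_forall fun k ω ω' _ _ _ h => by
    have : ω = ω' := h
    rw [this]

/-- the cells of the point: total exponent at least `N c` -/
theorem cel_tot {r : ℕ} (t : MSys S (M + 1) E (Fin r)) {z : ℝ} (h0 : 0 ≤ z) (h1 : z ≤ 1) :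
    ((M + 1 : ℕ) : ℝ) * z ≤ ((M + 1 : ℕ) : ℝ) - volKO t (rbot S) z := by
  have hN := Pool.Agent.Helper84.SEL.numx M
  have key : ∀ (j : ℕ) (hj : j ≤ M + 1), (j : ℝ) * z ≤ Pool.Agent.Helper94.SEL.num t (rbot S) hj z := by
    intro j
    induction j with
    | zero =>
      intro hj
      rw [hN.zero, Nat.cast_zero, zero_mul]
    | succ j ih =>
      intro hj
      have h2 := ih (Nat.le_of_succ_le hj)
      have h3 := hN.step S E r t (rbot S) z (pt_rbot t) h0 h1 j hj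
      push_cast
      linarith
  have h2 := key (M + 1) le_rfl
  rw [hN.last] at h2
  exact h2

/-- cells at all levels -/
theorem cel_ul {r : ℕ} (s : MSys S (M + 1) E (Fin r)) {e y : ℝ} (h0 : 0 < e) (h1 : e ≤ 1) (hy : 0 ≤ y) (hye : y ≤ e) :
    ((M + 1 : ℕ) : ℝ) * y ≤ UL s e y := by
  unfold UL
  rw [dif_pos ⟨h0, h1⟩]
  have h2 := cel_tot (s.trn e h0 h1) (z := y / e) (div_nonneg hy h0.le) ((div_le_one h0).2 hye)
  have h3 := mul_le_mul_of_nonneg_left h2 h0.le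
  have h4 : e * (((M + 1 : ℕ) : ℝ) * (y / e)) = ((M + 1 : ℕ) : ℝ) * y := by
    field_simp
  rw [h4] at h3
  exact h3

section cls

variable {C : ℕ → MCl (M + 1)} {m v g r : ℕ} {i j : Fin r} {L : Set ℝ} {u h : ℝ → ℝ → ℝ} {V : ℝ → ℝ → ℕ → ℝ}
  {P : (KM (M + 1) (Fin r)).Pd}

/-- robust classes have members -/
theorem exists_memb (hF : FC C m v g r i j L u h V P) : ∃ (S : Sp) (s : MSys S (M + 1) (lin g) (Fin r)),
    Mem C m v g r i j P S s := by
  obtain ⟨S, x, hx⟩ := hF.cls.ne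
  obtain ⟨s, hs, hE⟩ := hF.ety S x hx
  exact ⟨S, s, hE, hF.cls.ev S x (ob s) (hs.mono fun _ hk => hk.symm) hx⟩

/-- the numbers of a robust class at the rational levels -/
theorem nms_of (hL : ROW_LEV) (hNum : ROW_NUM (M + 1)) {A : MCl (M + 1)} (hC : Okc (M + 1) A C)
    (hst : ∀ m, m < M + 1 → STu m) (hg : 1 ≤ g) (hF : FC C m v g r i j L u h V P)
    (hr : ∀ e : ℚ, (0 : ℝ) < e → (e : ℝ) ≤ 1 → (e : ℝ) ∈ L) : Nms ((M + 1 : ℕ) : ℝ) (v : ℝ) u h := by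
  obtain ⟨S, s, hs⟩ := exists_memb hF
  obtain ⟨-, l2, l3, l4, -⟩ := hL S (M + 1) g r s
  obtain ⟨-, -, -, -, n5, -, n7, -⟩ := hNum A C hC hst m v g r i j L u h V P hg (Nat.succ_le_succ (Nat.zero_le M)) hF hr
  have h1L : (1 : ℝ) ∈ L := by
    have := hr 1 (by norm_num) (by norm_num)
    rwa [Rat.cast_one] at this
  refine ⟨?_, ?_, ?_, ?_, ?_, ?_⟩
  · intro e e' y h0 hee h1 hy hye
    have hee' : (e : ℝ) ≤ e' := by exact_mod_cast hee
    rw [← hF.ul S s hs e (hr e h0 (hee'.trans h1)) h0 (hee'.trans h1) y hy hye,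
      ← hF.ul S s hs e' (hr e' (h0.trans_le hee') h1) (h0.trans_le hee') h1 y hy (hye.trans hee')]
    exact l2 e e' y h0 hee' h1 hy hye
  · intro e y y' h0 h1 hy hyy hye
    rw [← hF.ul S s hs e (hr e h0 h1) h0 h1 y hy (hyy.trans hye),
      ← hF.ul S s hs e (hr e h0 h1) h0 h1 y' (hy.trans hyy) hye]
    exact l3 e y y' h0 h1 hy hyy hye
  · intro e y h0 h1 hy hye
    rw [← hF.ul S s hs e (hr e h0 h1) h0 h1 y hy hye,
      ← hF.hl S s hs e (hr e h0 h1) h0 h1 y hy (hye.trans h1)]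
    exact l4 e y h0 h1 hy hye
  · intro e y h0 h1 hy hye
    exact n7 e (hr e h0 h1) y h0 h1 hy hye
  · intro y y' hy hyy hy1
    exact n5 1 h1L y y' one_pos le_rfl hy hyy hy1
  · intro y hy hy1
    rw [← hF.ul S s hs 1 h1L one_pos le_rfl y hy hy1]
    exact cel_ul s one_pos le_rfl hy hy1

/-- NO JUMPS -/
theorem no_jump (hL : ROW_LEV) (hNum : ROW_NUM (M + 1)) (hR : ROW_RFC (M + 1)) (hCc : ROW_C (M + 1))
    {A : MCl (M + 1)} (hC : Okc (M + 1) A C) (hst : ∀ m, m < M + 1 → STu m) (hsto : STO (M + 1) (Cv A (v + 1)))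
    (hg : 1 ≤ g) (hF : FC C m v g r i j L u h V P) (hr : ∀ e : ℚ, (0 : ℝ) < e → (e : ℝ) ≤ 1 → (e : ℝ) ∈ L)
    (hLc : L.Countable) {c ε : ℝ} (hc : 0 < c) (hc1 : c < 1) (hε : 0 < ε) :
    ¬ ∀ᶠ y in 𝓝[<] c, u 1 y + h 1 y + ε ≤ u 1 c + h 1 c := by
  intro hj
  have hN := nms_of hL hNum hC hst hg hF hr
  obtain ⟨a, θ, hca, haθ, hθ1, ht1, ht2, hr1, hr2⟩ := exists_res hN hc hc1 hε hj
  have ha0 : 0 < a := hc.trans_le hca
  have ha1 : a ≤ 1 := haθ.le.trans hθ1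
  -- the level `a`
  obtain ⟨P', u', h', V', hP', hF'⟩ := hR A C hC hst m v g r i j P hg hF.cls hF.ety (L ∪ {a})
    (hLc.union (Set.countable_singleton a))
  have hr' : ∀ e : ℚ, (0 : ℝ) < e → (e : ℝ) ≤ 1 → (e : ℝ) ∈ L ∪ {a} := fun e h0 h1 => Or.inl (hr e h0 h1)
  have haL : a ∈ L ∪ {a} := Or.inr rfl
  obtain ⟨S, s, hs'⟩ := exists_memb hF'
  have hs : Mem C m v g r i j P S s := ⟨hs'.1, hP' _ _ hs'.2⟩
  have h1L : (1 : ℝ) ∈ L := by
    have := hr 1 (by norm_num) (by norm_num)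
    rwa [Rat.cast_one] at this
  have eu : ∀ (e : ℚ) (y : ℝ), (0 : ℝ) < e → (e : ℝ) ≤ 1 → 0 ≤ y → y ≤ e → u' e y = u e y := fun e y h0 h1 hy hye => by
    rw [← hF.ul S s hs e (hr e h0 h1) h0 h1 y hy hye, ← hF'.ul S s hs' e (hr' e h0 h1) h0 h1 y hy hye]
  have eu1 : ∀ y : ℝ, 0 ≤ y → y ≤ 1 → u' 1 y = u 1 y := fun y hy hy1 => by
    rw [← hF.ul S s hs 1 h1L one_pos le_rfl y hy hy1, ← hF'.ul S s hs' 1 (Or.inl h1L) one_pos le_rfl y hy hy1]
  have eh1 : ∀ y : ℝ, 0 ≤ y → y ≤ 1 → h' 1 y = h 1 y := fun y hy hy1 => by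
    rw [← hF.hl S s hs 1 h1L one_pos le_rfl y hy hy1, ← hF'.hl S s hs' 1 (Or.inl h1L) one_pos le_rfl y hy hy1]
  obtain ⟨-, l2, -, -, -⟩ := hL S (M + 1) g r s
  obtain ⟨q1, q2⟩ := res_cond (N := ((M + 1 : ℕ) : ℝ)) (v := (v : ℝ)) (u := u) (c := c) (a := a) (f := fun y => u' a y)
    hc hca (fun e y h0 hea hy hye => by
      show u e y ≤ u' a y
      rw [← hF.ul S s hs e (hr e h0 (hea.trans ha1)) h0 (hea.trans ha1) y hy hye,
        ← hF'.ul S s hs' a haL ha0 ha1 y hy (hye.trans hea)]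
      exact l2 e a y h0 hea ha1 hy hye)
    (fun y hy hya => by
      show _ ≤ u' a y
      rw [← hF'.ul S s hs' a haL ha0 ha1 y hy hya]
      exact cel_ul s ha0 ha1 hy hya) hr1 hr2
  refine hCc A C hC hst m v g r i j (L ∪ {a}) u' h' V' P' hg (Nat.succ_le_succ (Nat.zero_le M)) hsto hF' hr' c a θ ε hc
    hca haθ hθ1 haL hε ?_ ?_ ?_ ?_ ?_
  · intro e he het
    rw [eu e c (hc.trans_le he) (het.le.trans hθ1) hc.le he, eu1 c hc.le hc1.le]
    exact ht1 e he het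
  · intro e he he1
    have hce : c ≤ e := (hca.trans haθ.le).trans he.le
    rw [eu e c (hc.trans_le hce) he1 hc.le hce, eu1 c hc.le hc1.le]
    exact ht2 e he he1
  · filter_upwards [hj, ev_pos hc] with y h1 h2
    rw [eu1 y h2.1 (h2.2.le.trans hc1.le), eh1 y h2.1 (h2.2.le.trans hc1.le), eu1 c hc.le hc1.le, eh1 c hc.le hc1.le]
    exact h1
  · exact q1
  · intro e he he1
    obtain ⟨η, hη, h1⟩ := q2 e he he1
    refine ⟨η, hη, ?_⟩
    filter_upwards [h1, ev_pos hc] with y h2 h3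
    have hce : c ≤ e := hca.trans he.le
    rw [eu e y (hc.trans_le hce) he1 h3.1 (h3.2.le.trans hce)]
    exact h2

end cls

end

end Pool.Agent.Helper94.FSA
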