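import Pool.Agent.Helper15.FST.Abs

/-! FIRST, real analysis: the interval on which `u` has speed at least `N`, the point or the jump; the resolution. -/

set_option autoImplicit false

namespace Pool.Agent.Helper94.FSA

open Filter Topology Set Pool.Agent.Helper15.FST

noncomputable section

variable {N δ : ℝ} {u h : ℝ → ℝ} {U : ℝ → Prop}

/-- local speed to the right gives speed -/
theorem speed {b : ℝ} (hN : 0 ≤ N) (hum : ∀ x y, 0 ≤ x → x ≤ y → y ≤ 1 → u x ≤ u y) (hb : b ≤ 1)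
    (hsp : ∀ c, 0 ≤ c → c < b → ∃ κ : ℝ, 0 < κ ∧ ∀ c', c ≤ c' → c' ≤ 1 → N * min (c' - c) κ ≤ u c' - u c) {x y : ℝ}
    (hx : 0 ≤ x) (hxy : x ≤ y) (hy : y ≤ b) : N * (y - x) ≤ u y - u x := by
  -- the set of good points
  set G : Set ℝ := {z | x ≤ z ∧ z ≤ y ∧ N * (z - x) ≤ u z - u x} with hG
  have hxG : x ∈ G := ⟨le_rfl, hxy, by rw [sub_self, sub_self, mul_zero]⟩
  have hbd : BddAbove G := ⟨y, fun z hz => hz.2.1⟩
  set s := sSup G with hs
  have hxs : x ≤ s := le_csSup hbd hxG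
  have hsy : s ≤ y := csSup_le ⟨x, hxG⟩ fun z hz => hz.2.1
  have hsG : N * (s - x) ≤ u s - u x := by
    by_contra hcon
    push Not at hcon
    have hd : 0 < N * (s - x) - (u s - u x) := by linarith
    rcases hN.eq_or_lt with h0 | h0
    · rw [← h0] at hcon
      have := hum x s hx hxs (hsy.trans (hy.trans hb))
      linarith
    · obtain ⟨z, hz, hz2⟩ := exists_lt_of_lt_csSup (s := G) ⟨x, hxG⟩
        (show s - (N * (s - x) - (u s - u x)) / N < s by
          have := div_pos hd h0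
          linarith)
      have hzs : z ≤ s := le_csSup hbd hz
      have h1 := hum z s (hx.trans hz.1) hzs (hsy.trans (hy.trans hb))
      have h2 := hz.2.2
      have h3 : N * s - (N * (s - x) - (u s - u x)) < N * z := by
        have h4 := mul_lt_mul_of_pos_left hz2 h0
        have h5 : N * (s - (N * (s - x) - (u s - u x)) / N) = N * s - (N * (s - x) - (u s - u x)) := by
          field_simp
        linarith
      nlinarith
  rcases hsy.eq_or_lt with h1 | h1
  · rw [h1] at hsG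
    exact hsG
  · exfalso
    obtain ⟨κ, hκ, hk⟩ := hsp s (hx.trans hxs) (h1.trans_le hy)
    set z := min y (s + κ) with hz
    have hsz : s < z := lt_min h1 (by linarith)
    have h2 := hk z hsz.le ((min_le_left _ _).trans (hy.trans hb))
    have h3 : min (z - s) κ = z - s := min_eq_left (by linarith [min_le_right y (s + κ)])
    rw [h3] at h2
    have h4 : z ∈ G := ⟨hxs.trans hsz.le, min_le_left _ _, by nlinarith⟩
    have := le_csSup hbd h4
    linarith

/-- THE POINT OR THE JUMP -/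
theorem first_pt (hN : 1 ≤ N) (hδ : 0 < δ) (hum : ∀ x y, 0 ≤ x → x ≤ y → y ≤ 1 → u x ≤ u y)
    (hh : ∀ x y, 0 ≤ x → x ≤ y → y ≤ 1 → h y ≤ h x)
    (hr : ∀ c, 0 ≤ c → c < 1 → ContinuousWithinAt u (Ioi c) c) (h1 : u 1 = N) (h1' : h 1 = 0)
    (hu0 : 0 ≤ u 0) (h0 : u 0 + h 0 ≤ N - δ)
    (hsp : ∀ c, 0 ≤ c → c < 1 → U c → ∃ κ : ℝ, 0 < κ ∧ ∀ c', c ≤ c' → c' ≤ 1 → N * min (c' - c) κ ≤ u c' - u c)
    (hsat : ∀ c, 0 ≤ c → c < 1 → ¬ U c → N ≤ u c + h c) :
    (∃ c, 0 < c ∧ c < 1 ∧ ∃ ε : ℝ, 0 < ε ∧ ∀ᶠ y in 𝓝[<] c, u y + h y + ε ≤ u c + h c) ∨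
      ∃ c, 0 < c ∧ c < 1 ∧ U c ∧ ∃ p q : ℝ, 0 ≤ p ∧ 0 ≤ q ∧ q < 1 ∧
        Tendsto (fun x => x / (u (c + x) - u c)) (𝓝[>] 0) (𝓝 p) ∧
        Tendsto (fun x => (h c - h (c + x)) / (u (c + x) - u c)) (𝓝[>] 0) (𝓝 q) := by
  have hh0 : ∀ c, 0 ≤ c → c ≤ 1 → 0 ≤ h c := fun c hc hc1 => by
    rw [← h1']
    exact hh c 1 hc hc1 le_rfl
  set B : Set ℝ := {c | 0 ≤ c ∧ c ≤ 1 ∧ N - δ / 2 ≤ u c + h c} with hB
  have h1B : (1 : ℝ) ∈ B := ⟨zero_le_one, le_rfl, by rw [h1, h1']; linarith⟩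
  have hbd : BddBelow B := ⟨0, fun c hc => hc.1⟩
  set b := sInf B with hb
  have hb0 : 0 ≤ b := le_csInf ⟨1, h1B⟩ fun c hc => hc.1
  have hb1 : b ≤ 1 := csInf_le hbd h1B
  have hlt : ∀ c, 0 ≤ c → c < b → u c + h c < N - δ / 2 := fun c hc hcb => by
    by_contra hcon
    push Not at hcon
    have := csInf_le hbd (show c ∈ B from ⟨hc, hcb.le.trans hb1, hcon⟩)
    linarith
  have hUb : ∀ c, 0 ≤ c → c < b → U c := fun c hc hcb => by
    by_contra hcon
    have h2 := hsat c hc (hcb.trans_le hb1) hcon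
    have h3 := hlt c hc hcb
    linarith
  have hspd : ∀ x y, 0 ≤ x → x ≤ y → y ≤ b → N * (y - x) ≤ u y - u x := fun x y hx hxy hy =>
    speed (by linarith) hum hb1 (fun c hc hcb => hsp c hc (hcb.trans_le hb1) (hUb c hc hcb)) hx hxy hy
  -- `b < 1`
  have hb1' : b < 1 := by
    rcases hb1.eq_or_lt with h2 | h2
    · exfalso
      have h3 : (0 : ℝ) ≤ 1 - δ / (4 * N) ∨ 1 - δ / (4 * N) < 0 := le_or_gt _ _
      set y := max 0 (1 - δ / (4 * N)) with hy
      have hN0 : 0 < N := by linarith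
      have hy0 : 0 ≤ y := le_max_left _ _
      have hy1 : y < 1 := max_lt zero_lt_one (by have : 0 < δ / (4 * N) := by positivity
                                                 linarith)
      have h4 := hlt y hy0 (by rw [h2]; exact hy1)
      have h5 := hspd 0 y le_rfl hy0 (by rw [h2]; exact hy1.le)
      have h6 := hh0 y hy0 hy1.le
      have h7 : 1 - δ / (4 * N) ≤ y := le_max_right _ _
      have h8 : N * (1 - δ / (4 * N)) ≤ N * y := mul_le_mul_of_nonneg_left h7 hN0.le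
      have h9 : N * (1 - δ / (4 * N)) = N - δ / 4 := by field_simp
      linarith
    · exact h2
  -- the value at `b`
  have hDb : N - δ / 2 ≤ u b + h b := by
    by_contra hcon
    push Not at hcon
    have h2 : ∀ᶠ y in 𝓝[>] b, u y < N - δ / 2 - h b :=
      (hr b hb0 hb1').eventually (gt_mem_nhds (by linarith))
    obtain ⟨z, hz, hz2⟩ := mem_nhdsGT_iff_exists_Ioo_subset.1 h2
    obtain ⟨w, hw, hw2⟩ := exists_lt_of_csInf_lt (s := B) ⟨1, h1B⟩ (show b < z from hz)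
    have h3 : b ≤ w := csInf_le hbd hw
    have h4 : b < w := lt_of_le_of_ne h3 fun h5 => by
      rw [← h5] at hw
      linarith [hw.2.2]
    have h5 : u w < N - δ / 2 - h b := hz2 ⟨h4, hw2⟩
    have h6 := hh b w hb0 h3 hw.2.1
    linarith [hw.2.2]
  have hb00 : 0 < b := lt_of_le_of_ne hb0 fun h2 => by
    rw [← h2] at hDb
    linarith
  -- a small starting point
  obtain ⟨a, ha0, hab, haD⟩ : ∃ a, 0 < a ∧ a < b ∧ u a + h 0 < N - δ / 2 := by
    have h2 : ∀ᶠ y in 𝓝[>] (0 : ℝ), u y < N - δ / 2 - h 0 :=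
      (hr 0 le_rfl zero_lt_one).eventually (gt_mem_nhds (by linarith))
    obtain ⟨a, ha⟩ := (h2.and (Ioo_mem_nhdsGT hb00)).exists
    exact ⟨a, ha.2.1, ha.2.2, by linarith [ha.1]⟩
  have hJ : MonotoneOn (fun c => -h c) (Icc a b) := fun x hx y hy hxy =>
    neg_le_neg (hh x y (ha0.le.trans hx.1) hxy (hy.2.trans hb1))
  by_cases hno : ∀ c ∈ Ioc a b, NoJ u (fun c => -h c) c
  · right
    have hD : (fun c => -h c) b - (fun c => -h c) a < u b - u a := by
      show -h b - -h a < u b - u a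
      have h2 := hh 0 a le_rfl ha0.le (hab.le.trans hb1)
      linarith
    obtain ⟨c, hc, p, q, hp, hq, hq1, h2, h3⟩ := exists_pt (u := u) (J := fun c => -h c) (κ := N) hab (by linarith)
      (fun x y hx hxy hy => hspd x y (ha0.le.trans hx) hxy hy) hJ
      (fun x hx => hr x (ha0.le.trans hx.1) (hx.2.trans hb1')) hno hD
    refine ⟨c, ha0.trans_le hc.1, hc.2.trans hb1', hUb c (ha0.le.trans hc.1) hc.2, p, q, hp, hq, hq1, h2, ?_⟩
    refine h3.congr fun x => ?_
    congr 1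
    ring
  · left
    push Not at hno
    obtain ⟨c, hc, hno⟩ := hno
    unfold NoJ at hno
    push Not at hno
    obtain ⟨ε, hε, hno⟩ := hno
    refine ⟨c, ha0.trans hc.1, hc.2.trans_lt hb1', ε, hε, ?_⟩
    filter_upwards [hno] with y hy
    have : u y - -h y + ε < u c - -h c := hy
    linarith

end

end Pool.Agent.Helper94.FSA
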