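import Pool.Agent.Helper94.FSA.First
import Pool.Agent.Helper62.FST.St

/-! THE ROW FIRST over the rows `ROW_A'`, `ROW_LIMG` of helper62. -/

set_option autoImplicit false

namespace Pool.Agent.Helper94.FSA

open Pool.Agent.Helper15.FST Pool.Agent.Helper62.FST

variable {M : ℕ}

theorem al_limg (hA : ROW_A' M) (hLG : ROW_LIMG M) : ROW_AL M := by
  intro A C h1 hC hst m v g r i j L u h V P hg hsto hF c a p q hloc hp0
  obtain ⟨κ, e0, hκ, hw, hm⟩ := hA A C h1 hC hst m v g r i j L u h V P hg hF c a p q hloc hp0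
  obtain ⟨TT, hTT⟩ := hLG A C h1 hC hst v hsto m κ r e0 q p⁻¹ hκ i.pos hloc.q0 hloc.q1 hw hm
  exact ⟨κ, e0, 1 - q, p⁻¹, TT, hTT⟩

/-- **THE ROW FIRST** -/
theorem first_limg (hLEV : ROW_LEV) (hR : ROW_RFC (M + 1)) (hNum : ROW_NUM (M + 1)) (hA : ROW_A' M)
    (hB : ROW_B (M + 1)) (hCc : ROW_C (M + 1)) (hLG : ROW_LIMG M) : Pool.Agent.Helper94.SEL.FIRST M :=
  first_al hLEV hR hNum (al_limg hA hLG) hB hCc

end Pool.Agent.Helper94.FSA
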